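import Mathlib

/-!
# Finiteness of `d(S, R)` does not bound the relative Davenport constants of `S / H`

The semigroup is `S = L × N`, where `L` is the semilattice of the finite subsets of `ℕ` under union
and `N = {0, 1, 2}` with the addition truncated at `2`. An element `(U, i)` is idempotent for
`i = 0, 2`, and `(U, 1)` generates `{(U, 1), (U, 2)}`, which is not a group.
-/

set_option autoImplicit false

namespace Pool.Agent.Results.MP_6ad575_co.Refuted

universe u v

section definitions

variable {S : Type u} [AddCommSemigroup S]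

/-- `mult x n = (n + 1) x`. -/
def mult (x : S) : ℕ → S
  | 0 => x
  | n + 1 => mult x n + x

/-- The cyclic subsemigroup `⟨x⟩ = {m x : m ≥ 1}`. -/
def cyc (x : S) : Set S := Set.range (mult x)

variable (S) in
/-- `S` is periodic: each cyclic subsemigroup is finite. -/
def Periodic : Prop := ∀ x : S, (cyc x).Finite

open Classical in
/-- `e(x)`: the idempotent of `⟨x⟩` (it exists and is unique if `S` is periodic). -/
noncomputable def idem (x : S) : S :=
  if h : ∃ y ∈ cyc x, y + y = y then h.choose else x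

/-- `⟨a⟩` is a group. -/
def CycIsGroup (a : S) : Prop :=
  ∃ o ∈ cyc a, (∀ x ∈ cyc a, o + x = x) ∧ ∀ x ∈ cyc a, ∃ y ∈ cyc a, x + y = o

/-- `a ⪯ b`: `a = b` or `a = b + c` for some `c`. -/
def Below (a b : S) : Prop := a = b ∨ ∃ c, a = b + c

/-- `a` and `b` are `H`-equivalent. -/
def HRel (a b : S) : Prop := Below a b ∧ Below b a

theorem below_trans {a b c : S} (h1 : Below a b) (h2 : Below b c) : Below a c := by
  rcases h1 with rfl | ⟨x, rfl⟩
  · exact h2
  · rcases h2 with rfl | ⟨y, rfl⟩
    · exact Or.inr ⟨x, rfl⟩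
    · exact Or.inr ⟨y + x, by rw [add_assoc]⟩

theorem below_add {a b : S} (h : Below a b) (c : S) : Below (a + c) (b + c) := by
  rcases h with rfl | ⟨x, rfl⟩
  · exact Or.inl rfl
  · exact Or.inr ⟨x, by rw [add_right_comm]⟩

variable (S) in
/-- The congruence `H`. -/
def hCon : AddCon S where
  r := HRel
  iseqv :=
    ⟨fun _ => ⟨Or.inl rfl, Or.inl rfl⟩, fun h => ⟨h.2, h.1⟩,
      fun h1 h2 => ⟨below_trans h1.1 h2.1, below_trans h2.2 h1.2⟩⟩
  add' := by
    intro w x y z h1 h2
    refine ⟨below_trans (below_add h1.1 y) ?_, below_trans (below_add h1.2 z) ?_⟩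
    · rw [add_comm x y, add_comm x z]
      exact below_add h2.1 x
    · rw [add_comm w z, add_comm w y]
      exact below_add h2.2 w

/-- The sequence (list) `l` has sum `b`; the empty sequence has sum `b` if and only if `b` is an
identity element. -/
def HasSum {T : Type u} [AddCommSemigroup T] : List T → T → Prop
  | [], b => ∀ x, b + x = x
  | x :: l, b => l.foldl (· + ·) x = b

/-- `D_b(T)`: the largest length of an irreducible sequence with sum `b`, that is, of a sequence
with sum `b` no proper subsequence of which has sum `b`. -/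
noncomputable def relD {T : Type u} [AddCommSemigroup T] (b : T) : ℕ∞ :=
  ⨆ (l : List T) (_ : HasSum l b ∧ ∀ t, t.Sublist l → t ≠ l → ¬ HasSum t b), (l.length : ℕ∞)

variable (S) in
/-- The supremum of Q1: `D` of the class of `a` in `S / H`, over all `a` such that `⟨a⟩` is not a
group. -/
noncomputable def supD : ℕ∞ :=
  ⨆ (a : S) (_ : ¬ CycIsGroup a), relD (T := (hCon S).Quotient) (a : (hCon S).Quotient)

/-- The factor `X ^ s - a X ^ e(s)`. -/
noncomputable def factor {R : Type v} [CommRing R] (p : S × R) : AddMonoidAlgebra R S :=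
  AddMonoidAlgebra.single p.1 1 - AddMonoidAlgebra.single (idem p.1) p.2

/-- The product of the factors of a nonempty list (and `0`, not used, for the empty list). -/
noncomputable def prodFactors {R : Type v} [CommRing R] : List (S × R) → AddMonoidAlgebra R S
  | [] => 0
  | p :: l => l.foldl (fun P q => P * factor q) (factor p)

/-- The products of the sequence `s` do not vanish: for all nonzero coefficients `a_i` the product
`∏ (X ^ s_i - a_i X ^ e(s_i))` is nonzero. The empty product counts as nonzero. -/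
def NonVanishing (R : Type v) [CommRing R] (s : List S) : Prop :=
  s = [] ∨ ∀ l : List (S × R), l.map Prod.fst = s → (∀ p ∈ l, p.2 ≠ 0) → prodFactors l ≠ 0

variable (S) in
/-- `d(S, R)`. -/
noncomputable def dS (R : Type v) [CommRing R] : ℕ∞ :=
  ⨆ (s : List S) (_ : NonVanishing R s), (s.length : ℕ∞)

end definitions

/-! ### The example -/

/-- truncated addition -/
def sat (i j : Fin 3) : Fin 3 := if h : i.1 + j.1 < 3 then ⟨i.1 + j.1, h⟩ else 2

theorem sat_assoc : ∀ i j k, sat (sat i j) k = sat i (sat j k) := by decide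
theorem sat_comm : ∀ i j, sat i j = sat j i := by decide

/-- The carrier: pairs of a finite subset of `ℕ` and an element of `{0, 1, 2}`. -/
@[ext]
structure Ex where
  /-- the finite set -/
  fst : Finset ℕ
  /-- the level -/
  snd : Fin 3

instance : AddCommSemigroup Ex where
  add a b := ⟨a.1 ∪ b.1, sat a.2 b.2⟩
  add_assoc _ _ _ := Ex.ext (Finset.union_assoc _ _ _) (sat_assoc _ _ _)
  add_comm _ _ := Ex.ext (Finset.union_comm _ _) (sat_comm _ _)

theorem add_def (a b : Ex) : a + b = ⟨a.1 ∪ b.1, sat a.2 b.2⟩ := rfl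

theorem add_fst (a b : Ex) : (a + b).1 = a.1 ∪ b.1 := rfl
theorem add_snd (a b : Ex) : (a + b).2 = sat a.2 b.2 := rfl

theorem mult_fst (x : Ex) (n : ℕ) : (mult x n).1 = x.1 := by
  induction n with
  | zero => rfl
  | succ n ih => rw [mult, add_fst, ih, Finset.union_self]

theorem mult_snd_zero (x : Ex) (hx : x.2 = 0) (n : ℕ) : (mult x n).2 = 0 := by
  induction n with
  | zero => exact hx
  | succ n ih => rw [mult, add_snd, ih, hx]; rfl

theorem mult_snd_pos (x : Ex) (hx : x.2 ≠ 0) (n : ℕ) : (mult x (n + 1)).2 = 2 := by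
  have key : ∀ i j : Fin 3, i ≠ 0 → j ≠ 0 → sat i j = 2 := by decide
  induction n with
  | zero => rw [mult, add_snd]; exact key _ _ hx hx
  | succ n ih =>
    rw [mult, add_snd, ih]
    exact key _ _ (by decide) hx

theorem periodic : Periodic Ex := by
  intro x
  refine Set.Finite.subset (Set.finite_range fun i : Fin 3 => (⟨x.1, i⟩ : Ex)) ?_
  rintro y ⟨n, rfl⟩
  exact ⟨(mult x n).2, Ex.ext (mult_fst x n).symm rfl⟩

theorem idem_spec (x : Ex) : idem x ∈ cyc x ∧ idem x + idem x = idem x := by
  have h : ∃ y ∈ cyc x, y + y = y := by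
    by_cases hx : x.2 = 0
    · refine ⟨x, ⟨0, rfl⟩, ?_⟩
      refine Ex.ext (Finset.union_self _) ?_
      rw [add_snd, hx]; rfl
    · refine ⟨mult x 1, ⟨1, rfl⟩, ?_⟩
      refine Ex.ext (Finset.union_self _) ?_
      rw [add_snd, mult_snd_pos x hx]; rfl
  rw [idem, dif_pos h]
  exact h.choose_spec

theorem idem_zero (x : Ex) (hx : x.2 = 0) : idem x = x := by
  obtain ⟨⟨n, hn⟩, -⟩ := idem_spec x
  rw [← hn]
  exact Ex.ext (mult_fst x n) (by rw [mult_snd_zero x hx, hx])

theorem idem_pos (x : Ex) (hx : x.2 ≠ 0) : idem x = ⟨x.1, 2⟩ := by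
  obtain ⟨⟨n, hn⟩, h2⟩ := idem_spec x
  have key : ∀ i : Fin 3, i ≠ 0 → sat i i = i → i = 2 := by decide
  rw [← hn] at h2 ⊢
  refine Ex.ext (mult_fst x n) ?_
  rcases n with _ | n
  · exact key _ hx (congrArg Ex.snd h2)
  · exact mult_snd_pos x hx n

theorem not_group (x : Ex) (hx : x.2 = 1) : ¬ CycIsGroup x := by
  rintro ⟨o, ⟨n, hn⟩, h1, -⟩
  have h2 := h1 x ⟨0, rfl⟩
  have h3 : sat o.2 x.2 = x.2 := congrArg Ex.snd h2
  have ho : o.2 ≠ 0 := by
    rw [← hn]
    rcases n with _ | n
    · rw [mult, hx]; decide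
    · rw [mult_snd_pos x (by rw [hx]; decide)]; decide
  rw [hx] at h3
  have key : ∀ i : Fin 3, i ≠ 0 → sat i 1 ≠ 1 := by decide
  exact key _ ho h3

theorem hRel_eq {a b : Ex} (h : HRel a b) : a = b := by
  have key : ∀ i j k l : Fin 3, i = sat j k → j = sat i l → i = j := by decide
  rcases h with ⟨h | ⟨c, hc⟩, h' | ⟨d, hd⟩⟩
  · exact h
  · exact h
  · exact h'.symm
  · refine Ex.ext ?_ (key _ _ _ _ (congrArg Ex.snd hc) (congrArg Ex.snd hd))
    have h1 : a.1 = b.1 ∪ c.1 := congrArg Ex.fst hc
    have h2 : b.1 = a.1 ∪ d.1 := congrArg Ex.fst hd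
    refine Finset.Subset.antisymm ?_ ?_
    · rw [h2]; exact Finset.subset_union_left
    · rw [h1]; exact Finset.subset_union_left

/-- the class of an element -/
def mk (a : Ex) : (hCon Ex).Quotient := (a : (hCon Ex).Quotient)

theorem mk_inj {a b : Ex} (h : mk a = mk b) : a = b := hRel_eq ((hCon Ex).eq.1 h)

theorem mk_surj (q : (hCon Ex).Quotient) : ∃ a, mk a = q := by
  induction q using AddCon.induction_on with
  | H a => exact ⟨a, rfl⟩

theorem mk_add (a b : Ex) : mk (a + b) = mk a + mk b := rfl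

/-- the sequence `({n-1}, 0), …, ({0}, 0), (∅, 1)` -/
def seq : ℕ → List Ex
  | 0 => [⟨∅, 1⟩]
  | n + 1 => ⟨{n}, 0⟩ :: seq n

theorem mem_seq {n : ℕ} {x : Ex} : x ∈ seq n ↔ x = ⟨∅, 1⟩ ∨ ∃ i < n, x = ⟨{i}, 0⟩ := by
  induction n with
  | zero => simp [seq]
  | succ n ih =>
    rw [seq, List.mem_cons, ih]
    constructor
    · rintro (h | h | ⟨i, hi, h⟩)
      · exact Or.inr ⟨n, by omega, h⟩
      · exact Or.inl h
      · exact Or.inr ⟨i, by omega, h⟩
    · rintro (h | ⟨i, hi, h⟩)
      · exact Or.inr (Or.inl h)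
      · by_cases hin : i = n
        · subst hin; exact Or.inl h
        · exact Or.inr (Or.inr ⟨i, by omega, h⟩)

theorem seq_nodup (n : ℕ) : (seq n).Nodup := by
  induction n with
  | zero => simp [seq]
  | succ n ih =>
    rw [seq, List.nodup_cons]
    refine ⟨?_, ih⟩
    rw [mem_seq]
    rintro (h | ⟨i, hi, h⟩)
    · have h01 : (0 : Fin 3) = 1 := congrArg Ex.snd h
      exact absurd h01 (by decide)
    · have : ({n} : Finset ℕ) = {i} := congrArg Ex.fst h
      have := Finset.singleton_injective this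
      omega

theorem foldl_add {T : Type*} [AddCommSemigroup T] (l : List T) (x y : T) :
    l.foldl (· + ·) (x + y) = x + l.foldl (· + ·) y := by
  induction l generalizing y with
  | nil => rfl
  | cons a l ih => rw [List.foldl_cons, List.foldl_cons, add_assoc, ih]

theorem seq_sum (n : ℕ) : HasSum ((seq n).map mk) (mk ⟨Finset.range n, 1⟩) := by
  induction n with
  | zero => rfl
  | succ n ih =>
    rw [seq, List.map_cons]
    rcases hs : (seq n).map mk with _ | ⟨y, l⟩
    · have := congrArg List.length hs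
      rcases n with _ | n <;> simp [seq] at this
    · rw [hs] at ih
      show (y :: l).foldl (· + ·) (mk ⟨{n}, 0⟩) = _
      rw [List.foldl_cons, foldl_add]
      have ih' : l.foldl (· + ·) y = mk ⟨Finset.range n, 1⟩ := ih
      rw [ih', ← mk_add]
      congr 1
      refine Ex.ext ?_ rfl
      show {n} ∪ Finset.range n = Finset.range (n + 1)
      ext i
      simp only [Finset.mem_union, Finset.mem_singleton, Finset.mem_range]
      omega

/-- A property closed under addition passes to the sum. -/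
theorem closed_sum {T : Type*} [AddCommSemigroup T] (P : T → Prop)
    (hP : ∀ x y, P x → P y → P (x + y)) (l : List T) (x : T) (hx : P x) (hl : ∀ y ∈ l, P y) :
    P (l.foldl (· + ·) x) := by
  induction l generalizing x with
  | nil => exact hx
  | cons a l ih =>
    rw [List.foldl_cons]
    exact ih _ (hP _ _ hx (hl a (by simp))) fun y hy => hl y (by simp [hy])

theorem not_hasSum {P : Ex → Prop} (hP : ∀ x y, P x → P y → P (x + y)) {t : List (hCon Ex).Quotient}
    {b : Ex} (hb : ¬ P b) (hid : ∃ x : Ex, b + x ≠ x) (ht : ∀ x, mk x ∈ t → P x) :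
    ¬ HasSum t (mk b) := by
  intro h
  rcases t with _ | ⟨y, l⟩
  · obtain ⟨x, hx⟩ := hid
    exact hx (mk_inj (h (mk x)))
  · have h1 := closed_sum (fun q : (hCon Ex).Quotient => ∀ x, mk x = q → P x) (by
      intro p q hp hq x hx
      obtain ⟨p', rfl⟩ := mk_surj p
      obtain ⟨q', rfl⟩ := mk_surj q
      have : x = p' + q' := mk_inj hx
      rw [this]
      exact hP _ _ (hp p' rfl) (hq q' rfl)) l y (by
        intro x hx
        exact ht x (by rw [hx]; simp)) (by
        intro z hz x hx
        exact ht x (by rw [hx]; simp [hz]))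
    exact hb (h1 b h.symm)

theorem seq_irred (n : ℕ) (t : List (hCon Ex).Quotient) (ht : t.Sublist ((seq n).map mk))
    (hne : t ≠ (seq n).map mk) : ¬ HasSum t (mk ⟨Finset.range n, 1⟩) := by
  have hinj : Function.Injective mk := fun a b h => mk_inj h
  have hnd : ((seq n).map mk).Nodup := (seq_nodup n).map hinj
  -- some element is missing
  obtain ⟨q, hq, hqt⟩ : ∃ q ∈ (seq n).map mk, q ∉ t := by
    by_contra hcon
    push Not at hcon
    have hsub : (seq n).map mk ⊆ t := hcon
    have hlen := (hnd.subperm hsub).length_le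
    exact hne (ht.eq_of_length_le hlen)
  obtain ⟨x, hx, rfl⟩ := List.mem_map.1 hq
  have hid : ∃ x : Ex, (⟨Finset.range n, 1⟩ : Ex) + x ≠ x := by
    refine ⟨⟨∅, 0⟩, fun h => ?_⟩
    have h01 : sat 1 0 = 0 := congrArg Ex.snd h
    exact absurd h01 (by decide)
  have hmem : ∀ y, mk y ∈ t → y ∈ seq n ∧ y ≠ x := by
    intro y hy
    refine ⟨?_, ?_⟩
    · obtain ⟨z, hz, hzy⟩ := List.mem_map.1 (ht.subset hy)
      rwa [← mk_inj hzy]
    · rintro rfl
      exact hqt hy
  rcases mem_seq.1 hx with rfl | ⟨i, hi, rfl⟩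
  · refine not_hasSum (P := fun y => y.2 = 0) ?_ ?_ hid ?_
    · intro a b ha hb
      rw [add_snd, ha, hb]; rfl
    · show ¬ ((1 : Fin 3) = 0)
      decide
    · intro y hy
      obtain ⟨h1, h2⟩ := hmem y hy
      rcases mem_seq.1 h1 with h | ⟨j, hj, rfl⟩
      · exact absurd h h2
      · rfl
  · refine not_hasSum (P := fun y => i ∉ y.1) ?_ ?_ hid ?_
    · intro a b ha hb
      rw [add_fst, Finset.mem_union]
      exact fun h => h.elim ha hb
    · simpa using hi
    · intro y hy
      obtain ⟨h1, h2⟩ := hmem y hy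
      rcases mem_seq.1 h1 with rfl | ⟨j, hj, rfl⟩
      · simp
      · intro h
        have : i = j := by simpa using h
        subst this
        exact h2 rfl

theorem seq_length (n : ℕ) : (seq n).length = n + 1 := by
  induction n with
  | zero => rfl
  | succ n ih => rw [seq, List.length_cons, ih]

theorem supD_top : supD Ex = ⊤ := by
  rw [ENat.eq_top_iff_forall_ge]
  intro n
  have h1 : ((n : ℕ) : ℕ∞) ≤ relD (T := (hCon Ex).Quotient) (mk ⟨Finset.range n, 1⟩) := by
    have h2 : (((seq n).map mk).length : ℕ∞) ≤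
        relD (T := (hCon Ex).Quotient) (mk ⟨Finset.range n, 1⟩) :=
      le_iSup₂_of_le ((seq n).map mk) ⟨seq_sum n, seq_irred n⟩ le_rfl
    refine le_trans ?_ h2
    rw [List.length_map, seq_length]
    exact_mod_cast Nat.le_succ n
  refine h1.trans ?_
  exact le_iSup₂_of_le (f := fun (a : Ex) (_ : ¬ CycIsGroup a) =>
    relD (T := (hCon Ex).Quotient) (a : (hCon Ex).Quotient)) ⟨Finset.range n, 1⟩
    (not_group _ rfl) le_rfl

section dcomp

variable (R : Type v) [CommRing R]

theorem factor_zero (x : Ex) (hx : x.2 ≠ 1) : factor (R := R) (x, 1) = 0 := by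
  have h : idem x = x := by
    by_cases h0 : x.2 = 0
    · exact idem_zero x h0
    · rw [idem_pos x h0]
      have key : ∀ i : Fin 3, i ≠ 1 → i ≠ 0 → i = 2 := by decide
      exact Ex.ext rfl (key _ hx h0).symm
  rw [factor]
  simp only [h, sub_self]

theorem factor_mul (x y : Ex) : factor (R := R) (x, 1) * factor (y, 1) = 0 := by
  by_cases hx : x.2 = 1
  · by_cases hy : y.2 = 1
    · have hx0 : x.2 ≠ 0 := by rw [hx]; decide
      have hy0 : y.2 ≠ 0 := by rw [hy]; decide
      simp only [factor, idem_pos x hx0, idem_pos y hy0, mul_sub, sub_mul,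
        AddMonoidAlgebra.single_mul_single, mul_one]
      have e1 : x + y = (⟨x.1 ∪ y.1, 2⟩ : Ex) := by
        rw [add_def, hx, hy]; rfl
      have e2 : (⟨x.1, 2⟩ : Ex) + y = (⟨x.1 ∪ y.1, 2⟩ : Ex) := by
        refine Ex.ext rfl ?_
        show sat 2 y.2 = 2
        rw [hy]; rfl
      have e3 : x + (⟨y.1, 2⟩ : Ex) = (⟨x.1 ∪ y.1, 2⟩ : Ex) := by
        refine Ex.ext rfl ?_
        show sat x.2 2 = 2
        rw [hx]; rfl
      have e4 : (⟨x.1, 2⟩ : Ex) + (⟨y.1, 2⟩ : Ex) = (⟨x.1 ∪ y.1, 2⟩ : Ex) := rfl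
      rw [e1, e2, e3, e4, sub_self]
    · rw [factor_zero R y hy, mul_zero]
  · rw [factor_zero R x hx, zero_mul]

theorem foldl_zero (l : List (Ex × R)) :
    l.foldl (fun P q => P * factor q) (0 : AddMonoidAlgebra R Ex) = 0 := by
  induction l with
  | nil => rfl
  | cons a l ih => rw [List.foldl_cons, zero_mul, ih]

theorem d_eq_one [Nontrivial R] : dS Ex R = 1 := by
  refine le_antisymm ?_ ?_
  · refine iSup₂_le fun s hs => ?_
    rcases s with _ | ⟨x, _ | ⟨y, s⟩⟩
    · simp
    · simp
    · exfalso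
      rcases hs with h | h
      · exact absurd h (by simp)
      · refine h ((x, 1) :: (y, 1) :: s.map fun z => (z, 1)) ?_ ?_ ?_
        · simp [List.map_map, Function.comp_def]
        · intro p hp
          simp only [List.mem_cons, List.mem_map] at hp
          rcases hp with rfl | rfl | ⟨z, -, rfl⟩ <;> exact one_ne_zero
        · show List.foldl (fun P q => P * factor q) (factor (x, 1))
            ((y, 1) :: s.map fun z => (z, 1)) = 0
          rw [List.foldl_cons, factor_mul, foldl_zero]
  · refine le_iSup₂_of_le (f := fun (s : List Ex) (_ : NonVanishing R s) => (s.length : ℕ∞))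
      [(⟨∅, 1⟩ : Ex)] (Or.inr ?_) (by simp)
    intro l hl _
    obtain ⟨⟨x, a⟩, rfl⟩ : ∃ p, l = [p] := by
      rcases l with _ | ⟨p, _ | ⟨q, l⟩⟩
      · simp at hl
      · exact ⟨p, rfl⟩
      · simp at hl
    have hx : x = (⟨∅, 1⟩ : Ex) := by simpa using hl
    subst hx
    show factor _ ≠ 0
    intro h
    rw [factor, idem_pos _ (by show (1 : Fin 3) ≠ 0; decide)] at h
    have h2 := congrArg (fun f => f.coeff (⟨∅, 1⟩ : Ex)) h
    simp at h2

end dcomp

/-- **Q1 is false.** There is a commutative periodic semigroup `S` such that `d(S, R) = 1` for every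
nonzero commutative ring `R`, although the supremum of `D` of the class of `a` in `S / H` over all
`a` such that `⟨a⟩` is not a group is infinite. -/
theorem result : ∃ (S : Type) (_ : AddCommSemigroup S), Periodic S ∧
    (∀ (R : Type v) [CommRing R] [Nontrivial R], dS S R = 1) ∧ supD S = ⊤ :=
  ⟨Ex, inferInstance, periodic, fun R _ _ => d_eq_one R, supD_top⟩

end Pool.Agent.Results.MP_6ad575_co.Refuted
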